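import Pool.Agent.H74Z.RigLimit

open MeasureTheory Filter

/-- For every `β > 0`, `a > -1` and `c > 0`, every simple point process on `(0, ∞)` that is the
limit in law of the rescaled beta-Laguerre configurations `{c n x_i}` (along any sequence of
sizes tending to infinity, in particular along all sizes) is number rigid. -/
theorem Pool.Agent.Results.MP_e6d203_pr.AHardEdgeRigid.result :
    ∀ (β a c : ℝ), 0 < β → -1 < a → 0 < c →
    ∀ (N : ℕ → ℕ), Tendsto N atTop atTop →
    ∀ (Ω : Type*) [MeasurableSpace Ω] (P : Measure Ω) [IsProbabilityMeasure P]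
      (X : Ω → Measure ℝ), Pool.Agent.H74Z.Rig.IsSimplePointProcess X →
      Pool.Agent.H74Z.Rig.IsHardEdgeLimit β a c N P X →
      Pool.Agent.H74Z.Rig.NumberRigid P X :=
  fun _ _ _ hβ ha hc _ hN _ _ _ _ _ hX hlim => Pool.Agent.H74Z.Rig.numberRigid hβ ha hc hN hX hlim
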